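import Pool.Agent.MP_c9886c_pr.Quenched

set_option autoImplicit false

open MeasureTheory Set Filter Function
open scoped ENNReal

namespace Pool.Agent.MP_c9886c_pr

/-- Bounded measurable real functions. -/
structure BM {X : Type*} [MeasurableSpace X] (F : X → ℝ) : Prop where
  meas : Measurable F
  bdd : ∃ C, ∀ x, |F x| ≤ C

section BM

variable {X : Type*} [MeasurableSpace X]

lemma BM.const (c : ℝ) : BM (fun _ : X => c) := ⟨measurable_const, |c|, fun _ => le_rfl⟩

lemma BM.add {F G : X → ℝ} (hF : BM F) (hG : BM G) : BM (fun x => F x + G x) := by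
  obtain ⟨C, hC⟩ := hF.bdd
  obtain ⟨D, hD⟩ := hG.bdd
  exact ⟨hF.meas.add hG.meas, C + D, fun x => (abs_add_le _ _).trans (add_le_add (hC x) (hD x))⟩

lemma BM.mul {F G : X → ℝ} (hF : BM F) (hG : BM G) : BM (fun x => F x * G x) := by
  obtain ⟨C, hC⟩ := hF.bdd
  obtain ⟨D, hD⟩ := hG.bdd
  refine ⟨hF.meas.mul hG.meas, C * D, fun x => ?_⟩
  rw [abs_mul]
  exact mul_le_mul (hC x) (hD x) (abs_nonneg _) ((abs_nonneg _).trans (hC x))

lemma BM.sub {F G : X → ℝ} (hF : BM F) (hG : BM G) : BM (fun x => F x - G x) := by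
  have := hF.add ((BM.const (-1)).mul hG)
  simpa only [neg_mul, one_mul, ← sub_eq_add_neg] using this

lemma BM.comp {Y : Type*} [MeasurableSpace Y] {F : X → ℝ} (hF : BM F) {g : Y → X}
    (hg : Measurable g) : BM (fun y => F (g y)) := by
  obtain ⟨C, hC⟩ := hF.bdd
  exact ⟨hF.meas.comp hg, C, fun y => hC _⟩

lemma BM.prod {ι : Type*} (s : Finset ι) {F : ι → X → ℝ} (hF : ∀ i, BM (F i)) :
    BM (fun x => ∏ i ∈ s, F i x) := by
  classical
  induction s using Finset.induction_on with
  | empty => simpa using BM.const 1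
  | insert j S hj ih =>
    simp only [Finset.prod_insert hj]
    exact (hF j).mul ih

lemma BM.integrable {F : X → ℝ} (hF : BM F) (μ : Measure X) [IsFiniteMeasure μ] :
    Integrable F μ := by
  obtain ⟨C, hC⟩ := hF.bdd
  exact Integrable.of_bound hF.meas.aestronglyMeasurable C (Eventually.of_forall hC)

end BM

lemma integral_four {X : Type*} [MeasurableSpace X] (α : Measure X) {f g h k : X → ℝ}
    (hf : Integrable f α) (hg : Integrable g α) (hh : Integrable h α) (hk : Integrable k α) :
    ∫ a, (f a - g a - h a + k a) ∂α = ∫ a, f a ∂α - ∫ a, g a ∂α - ∫ a, h a ∂α + ∫ a, k a ∂α := by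
  have a1 : Integrable (fun a => f a - g a) α := hf.sub hg
  have a2 : Integrable (fun a => f a - g a - h a) α := a1.sub hh
  rw [integral_add a2 hk, integral_sub a1 hh, integral_sub hf hg]

lemma chebyshev (α : Measure ℝ) [IsProbabilityMeasure α] {r g : ℝ → ℝ} (hr : BM r) (hg : BM g)
    (hr' : Antitone r) (hg' : Monotone g) :
    ∫ a, r a * g a ∂α ≤ (∫ a, r a ∂α) * ∫ a, g a ∂α := by
  have i1 := hr.integrable α
  have i2 := hg.integrable α
  have i3 := (hr.mul hg).integrable α
  have h1 : ∀ b, ∫ a, r a * g a ∂α - r b * ∫ a, g a ∂α - (∫ a, r a ∂α) * g b + r b * g b ≤ 0 := by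
    intro b
    have : ∫ a, (r a * g a - r b * g a - r a * g b + r b * g b) ∂α ≤ 0 := by
      refine integral_nonpos fun a => ?_
      simp only [Pi.zero_apply]
      rcases le_total a b with h | h
      · nlinarith [hr' h, hg' h]
      · nlinarith [hr' h, hg' h]
    rwa [integral_four α i3 (i2.const_mul _) (i1.mul_const _) (integrable_const _),
      integral_const_mul, integral_mul_const, integral_const, probReal_univ, one_smul] at this
  have h2 := integral_nonpos (μ := α) h1
  rw [integral_four α (integrable_const _) (i1.mul_const _) (i2.const_mul _) i3,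
    integral_const_mul, integral_mul_const, integral_const, probReal_univ, one_smul] at h2
  linarith

/-- The law of the environment. -/
noncomputable abbrev env (α : Measure ℝ) : Measure (ℤ → ℝ) := Measure.infinitePi fun _ : ℤ => α

lemma measurePreserving_update (α : Measure ℝ) [IsProbabilityMeasure α] (i : ℤ) :
    MeasurePreserving (fun p : (ℤ → ℝ) × ℝ => update p.1 i p.2) ((env α).prod α) (env α) := by
  refine ⟨measurable_update', Measure.eq_infinitePi _ fun s t ht => ?_⟩
  rw [Measure.map_apply measurable_update' (MeasurableSet.pi s.countable_toSet fun j _ => ht j)]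
  by_cases hi : i ∈ s
  · have : (fun p : (ℤ → ℝ) × ℝ => update p.1 i p.2) ⁻¹' Set.pi s t =
        Set.pi (s.erase i) t ×ˢ t i := by
      ext ⟨ω, a⟩
      simp only [mem_preimage, Set.mem_pi, Finset.mem_coe, mem_prod, Finset.mem_erase]
      constructor
      · intro h
        refine ⟨fun j hj => ?_, ?_⟩
        · simpa [hj.1] using h j hj.2
        · simpa using h i hi
      · rintro ⟨h1, h2⟩ j hj
        by_cases hji : j = i
        · subst hji; simpa using h2
        · simpa [hji] using h1 j ⟨hji, hj⟩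
    rw [this, Measure.prod_prod, Measure.infinitePi_pi _ fun j _ => ht j,
      Finset.prod_erase_mul _ _ hi]
  · have : (fun p : (ℤ → ℝ) × ℝ => update p.1 i p.2) ⁻¹' Set.pi s t = Set.pi s t ×ˢ univ := by
      ext ⟨ω, a⟩
      simp only [mem_preimage, Set.mem_pi, Finset.mem_coe, mem_prod, mem_univ, and_true]
      refine forall₂_congr fun j hj => ?_
      have hji : j ≠ i := fun h => hi (h ▸ hj)
      simp [hji]
    rw [this, Measure.prod_prod, Measure.infinitePi_pi _ fun j _ => ht j, measure_univ, mul_one]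

lemma integral_env_update (α : Measure ℝ) [IsProbabilityMeasure α] (i : ℤ) {G : (ℤ → ℝ) → ℝ}
    (hG : BM G) : ∫ ω, G ω ∂(env α) = ∫ ω, ∫ a, G (update ω i a) ∂α ∂(env α) := by
  have hmp := measurePreserving_update α i
  rw [← integral_prod (fun p : (ℤ → ℝ) × ℝ => G (update p.1 i p.2))
    ((hG.comp measurable_update').integrable _)]
  conv_lhs => rw [← hmp.map_eq]
  exact integral_map measurable_update'.aemeasurable hG.meas.aestronglyMeasurable

lemma integrable_inner_update (α : Measure ℝ) [IsProbabilityMeasure α] (i : ℤ)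
    {G : (ℤ → ℝ) → ℝ} (hG : BM G) :
    Integrable (fun ω => ∫ a, G (update ω i a) ∂α) (env α) :=
  ((hG.comp (g := fun p : (ℤ → ℝ) × ℝ => update p.1 i p.2) measurable_update').integrable
    ((env α).prod α)).integral_prod_left

lemma chebyshev_env (α : Measure ℝ) [IsProbabilityMeasure α] (i : ℤ) {r : ℝ → ℝ} (hr : BM r)
    (hr' : Antitone r) {G : (ℤ → ℝ) → ℝ} (hG : BM G)
    (hG' : ∀ ω, Monotone fun a => G (update ω i a)) :
    ∫ ω, r (ω i) * G ω ∂(env α) ≤ (∫ a, r a ∂α) * ∫ ω, G ω ∂(env α) := by
  have h1 : BM fun ω : ℤ → ℝ => r (ω i) * G ω := (hr.comp (measurable_pi_apply i)).mul hG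
  rw [integral_env_update α i h1, integral_env_update α i hG, ← integral_const_mul]
  refine integral_mono (integrable_inner_update α i h1)
    ((integrable_inner_update α i hG).const_mul _) fun ω => ?_
  simp only [update_self]
  exact chebyshev α hr (hG.comp (measurable_update ω)) hr' (hG' ω)

lemma indep_env (α : Measure ℝ) [IsProbabilityMeasure α] (i : ℤ) {r : ℝ → ℝ} (hr : BM r)
    {H : (ℤ → ℝ) → ℝ} (hH : BM H) (hH' : ∀ ω a, H (update ω i a) = H ω) :
    ∫ ω, r (ω i) * H ω ∂(env α) = (∫ a, r a ∂α) * ∫ ω, H ω ∂(env α) := by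
  have h1 : BM fun ω : ℤ → ℝ => r (ω i) * H ω := (hr.comp (measurable_pi_apply i)).mul hH
  rw [integral_env_update α i h1, ← integral_const_mul]
  simp only [update_self, hH', integral_mul_const]

end Pool.Agent.MP_c9886c_pr
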