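import Mathlib

set_option autoImplicit false

open MeasureTheory

namespace Pool.Agent.MP_c9886c_pr

/-- `ρ = (1 - w) / w`. -/
noncomputable def rho (w : ℝ) : ℝ := (1 - w) / w

/-- One step of the walk from `x` in the environment `ω`. -/
noncomputable def step (ω : ℤ → ℝ) (x : ℤ) : Measure ℤ :=
  ENNReal.ofReal (ω x) • Measure.dirac (x + 1) + ENNReal.ofReal (1 - ω x) • Measure.dirac (x - 1)

/-- Quenched law of `Z_n`, started at `0`. -/
noncomputable def quenched (ω : ℤ → ℝ) : ℕ → Measure ℤ
  | 0 => Measure.dirac 0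
  | n + 1 => (quenched ω n).bind (step ω)

/-- Annealed law of `Z_n` for an i.i.d. environment with marginal `α`. -/
noncomputable def annealed (α : Measure ℝ) (n : ℕ) : Measure ℤ :=
  (Measure.infinitePi fun _ : ℤ => α).bind fun ω => quenched ω n

/-- Solomon's speed. -/
noncomputable def speed (α : Measure ℝ) : ℝ :=
  if ∫ w, rho w ∂α < 1 then (1 - ∫ w, rho w ∂α) / (1 + ∫ w, rho w ∂α) else 0

end Pool.Agent.MP_c9886c_pr
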