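import Pool.Agent.MP_c9886c_pr.Cheb

set_option autoImplicit false

open MeasureTheory Set Filter Function
open scoped ENNReal

namespace Pool.Agent.MP_c9886c_pr

/-- Clamp to `[c, 1 - c]`. -/
noncomputable def cl (c w : ℝ) : ℝ := max c (min w (1 - c))

/-- Clamped environment. -/
noncomputable def clE (c : ℝ) (ω : ℤ → ℝ) : ℤ → ℝ := fun x => cl c (ω x)

lemma cl_mem {c : ℝ} (hc : c ≤ 1 - c) (w : ℝ) : cl c w ∈ Icc c (1 - c) :=
  ⟨le_max_left _ _, max_le hc (min_le_right _ _)⟩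

lemma cl_eq {c w : ℝ} (hw : w ∈ Icc c (1 - c)) : cl c w = w := by
  rw [cl, min_eq_left hw.2, max_eq_right hw.1]

lemma monotone_cl (c : ℝ) : Monotone (cl c) := fun _ _ h =>
  max_le_max le_rfl (min_le_min h le_rfl)

lemma measurable_cl (c : ℝ) : Measurable (cl c) := by
  have : Continuous (cl c) := by unfold cl; fun_prop
  exact this.measurable

section clamp

variable {c : ℝ} (h0 : 0 < c) (hc : c ≤ 1 - c)
include h0 hc

lemma cl_pos (w : ℝ) : 0 < cl c w := h0.trans_le (cl_mem hc w).1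

lemma cl_le_one (w : ℝ) : cl c w ≤ 1 := (cl_mem hc w).2.trans (by linarith)

lemma clE_mem (ω : ℤ → ℝ) (x : ℤ) : clE c ω x ∈ Icc (0 : ℝ) 1 :=
  ⟨(cl_pos h0 hc _).le, cl_le_one h0 hc _⟩

lemma bm_cl : BM (cl c) :=
  ⟨measurable_cl c, 1, fun w => by
    rw [abs_of_pos (cl_pos h0 hc w)]; exact cl_le_one h0 hc w⟩

lemma rho_cl_nonneg (w : ℝ) : 0 ≤ rho (cl c w) :=
  div_nonneg (sub_nonneg.2 (cl_le_one h0 hc w)) (cl_pos h0 hc w).le

lemma rho_cl_pos (w : ℝ) : 0 < rho (cl c w) :=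
  div_pos (by linarith [(cl_mem hc w).2]) (cl_pos h0 hc w)

lemma rho_cl_le (w : ℝ) : rho (cl c w) ≤ 1 / c :=
  div_le_div₀ zero_le_one (by linarith [cl_pos h0 hc w]) h0 (cl_mem hc w).1

lemma bm_rho_cl : BM fun w => rho (cl c w) := by
  refine ⟨?_, 1 / c, fun w => ?_⟩
  · have := measurable_cl c
    unfold rho
    fun_prop
  · rw [abs_of_nonneg (rho_cl_nonneg h0 hc w)]
    exact rho_cl_le h0 hc w

lemma antitone_rho_cl : Antitone fun w => rho (cl c w) := by
  intro a b hab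
  have h := monotone_cl c hab
  exact div_le_div₀ (sub_nonneg.2 (cl_le_one h0 hc a)) (by linarith) (cl_pos h0 hc a) h

lemma bm_clE (x : ℤ) : BM fun ω : ℤ → ℝ => clE c ω x :=
  (bm_cl h0 hc).comp (measurable_pi_apply x)

lemma bm_tr (f : ℤ → ℝ) (n : ℕ) : ∀ x, BM fun ω : ℤ → ℝ => (tr (clE c ω))^[n] f x := by
  induction n with
  | zero => intro x; exact BM.const _
  | succ n ih =>
    intro x
    simp only [tr_iterate_succ]
    exact ((bm_clE h0 hc x).mul (ih _)).add (((BM.const 1).sub (bm_clE h0 hc x)).mul (ih _))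

lemma bm_tau (u : ℝ) (b : ℤ) (k : ℕ) : BM fun ω : ℤ → ℝ => tau u b (clE c ω) k := by
  induction k with
  | zero => exact BM.const _
  | succ k ih =>
    simp only [tau]
    exact (BM.const 1).add (((bm_rho_cl h0 hc).comp (measurable_pi_apply (b + k))).mul
      ((BM.const 1).add ih))

lemma monotone_tr_update {f : ℤ → ℝ} (hf : Monotone f) (n : ℕ) (x i : ℤ) (ω : ℤ → ℝ) :
    Monotone fun a => (tr (clE c (update ω i a)))^[n] f x := by
  intro a b hab
  refine tr_iterate_mono (clE_mem h0 hc _) (clE_mem h0 hc _) (fun y => monotone_cl c ?_) hf n x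
  exact update_mono hab y

variable (α : Measure ℝ) [IsProbabilityMeasure α]

lemma tau_step {u : ℝ} {b : ℤ} {k : ℕ} {G : (ℤ → ℝ) → ℝ} (hG : BM G)
    (h : ∫ ω, tau u b (clE c ω) k * (rho (cl c (ω (b + k))) * G ω) ∂(env α) ≤
      u * ∫ ω, rho (cl c (ω (b + k))) * G ω ∂(env α)) :
    ∫ ω, tau u b (clE c ω) (k + 1) * G ω ∂(env α) ≤
      ∫ ω, G ω ∂(env α) + (1 + u) * ∫ ω, rho (cl c (ω (b + k))) * G ω ∂(env α) := by
  have b1 : BM fun ω : ℤ → ℝ => rho (cl c (ω (b + k))) * G ω :=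
    ((bm_rho_cl h0 hc).comp (measurable_pi_apply (b + k))).mul hG
  have b2 := (bm_tau h0 hc u b k).mul b1
  have e : (fun ω => tau u b (clE c ω) (k + 1) * G ω) = fun ω =>
      (G ω + rho (cl c (ω (b + k))) * G ω) +
        tau u b (clE c ω) k * (rho (cl c (ω (b + k))) * G ω) := by
    funext ω
    simp only [tau, clE]
    ring
  rw [e, integral_add ((hG.add b1).integrable _) (b2.integrable _),
    integral_add (hG.integrable _) (b1.integrable _)]
  linarith

lemma mono_rho_mul {b : ℤ} {k : ℕ} {G : (ℤ → ℝ) → ℝ}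
    (hG' : ∀ j : ℕ, j < k + 1 → ∀ ω, Monotone fun a => G (update ω (b + j) a)) :
    ∀ j : ℕ, j < k → ∀ ω : ℤ → ℝ, Monotone fun a =>
      rho (cl c (update ω (b + j) a (b + k))) * G (update ω (b + j) a) := by
  intro j hj ω
  have hne : b + (k : ℤ) ≠ b + j := by omega
  simp only [update_of_ne hne]
  exact (hG' j (by omega) ω).const_mul (rho_cl_nonneg h0 hc _)

lemma tau_le {u : ℝ} (hu : 0 ≤ 1 + u) (huR : u = 1 + (1 + u) * ∫ a, rho (cl c a) ∂α) (b : ℤ)
    (k : ℕ) : ∀ G : (ℤ → ℝ) → ℝ, BM G →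
      (∀ j : ℕ, j < k → ∀ ω, Monotone fun a => G (update ω (b + j) a)) →
      ∫ ω, tau u b (clE c ω) k * G ω ∂(env α) ≤ u * ∫ ω, G ω ∂(env α) := by
  induction k with
  | zero => intro G _ _; simp only [tau]; rw [integral_const_mul]
  | succ k ih =>
    intro G hG hG'
    have b1 : BM fun ω : ℤ → ℝ => rho (cl c (ω (b + k))) * G ω :=
      ((bm_rho_cl h0 hc).comp (measurable_pi_apply (b + k))).mul hG
    have h1 := tau_step h0 hc α hG (ih _ b1 (mono_rho_mul h0 hc hG'))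
    have h2 := chebyshev_env α (b + k) (bm_rho_cl h0 hc) (antitone_rho_cl h0 hc) hG
      (hG' k (by omega))
    have h3 := mul_le_mul_of_nonneg_left h2 hu
    calc _ ≤ _ := h1
      _ ≤ ∫ ω, G ω ∂(env α) + (1 + u) * ((∫ a, rho (cl c a) ∂α) * ∫ ω, G ω ∂(env α)) := by
          linarith
      _ = (1 + (1 + u) * ∫ a, rho (cl c a) ∂α) * ∫ ω, G ω ∂(env α) := by ring
      _ = _ := by rw [← huR]

lemma strict_cheb (hae : ∀ᵐ w ∂α, w ∈ Icc c (1 - c)) (hnd : ∀ a : ℝ, α ≠ Measure.dirac a) :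
    ∫ a, rho (cl c a) * cl c a ∂α < (∫ a, rho (cl c a) ∂α) * ∫ a, cl c a ∂α := by
  by_contra hle
  push Not at hle
  set m := ∫ a, cl c a ∂α with hm
  set R := ∫ a, rho (cl c a) ∂α with hR
  have i1 := (bm_cl h0 hc).integrable α
  have i2 := (bm_rho_cl h0 hc).integrable α
  have hm0 : 0 ≤ m := integral_nonneg fun a => (cl_pos h0 hc a).le
  have e1 : ∀ a, rho (cl c a) * cl c a = 1 - cl c a := fun a =>
    div_mul_cancel₀ _ (cl_pos h0 hc a).ne'
  simp only [e1] at hle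
  rw [integral_sub (integrable_const _) i1, integral_const, probReal_univ, one_smul, ← hm] at hle
  have e2 : ∀ a, (cl c a - m) ^ 2 / cl c a =
      cl c a - 2 * m - (-m ^ 2) + m ^ 2 * rho (cl c a) := by
    intro a
    have := (cl_pos h0 hc a).ne'
    simp only [rho]
    field_simp
    ring
  have i3 : Integrable (fun a => (cl c a - m) ^ 2 / cl c a) α := by
    simp only [e2]
    exact ((i1.sub (integrable_const _)).sub (integrable_const _)).add (i2.const_mul _)
  have hnn : ∀ a, 0 ≤ (cl c a - m) ^ 2 / cl c a := fun a =>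
    div_nonneg (sq_nonneg _) (cl_pos h0 hc a).le
  have h3 : ∫ a, (cl c a - m) ^ 2 / cl c a ∂α = 0 := by
    refine le_antisymm ?_ (integral_nonneg hnn)
    simp only [e2]
    rw [integral_four α i1 (integrable_const _) (integrable_const _) (i2.const_mul _),
      integral_const, integral_const, integral_const_mul, probReal_univ, one_smul, one_smul,
      ← hm, ← hR]
    nlinarith
  rw [integral_eq_zero_iff_of_nonneg hnn i3] at h3
  have h4 : ∀ᵐ a ∂α, id a = (fun _ => m) a := by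
    filter_upwards [h3, hae] with a ha ha'
    have hp := (cl_pos h0 hc a).ne'
    simp only [Pi.zero_apply, div_eq_zero_iff, hp, or_false] at ha
    rw [cl_eq ha'] at ha
    have := pow_eq_zero_iff (two_ne_zero) |>.1 ha
    simp only [id]
    linarith
  apply hnd m
  have : α.map id = α.map (fun _ => m) := Measure.map_congr h4
  rwa [Measure.map_id, Measure.map_const, measure_univ, one_smul] at this

lemma tau_lt (hae : ∀ᵐ w ∂α, w ∈ Icc c (1 - c)) (hnd : ∀ a : ℝ, α ≠ Measure.dirac a)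
    {u : ℝ} (hu : 0 < 1 + u) (huR : u = 1 + (1 + u) * ∫ a, rho (cl c a) ∂α) (n : ℕ) :
    ∫ ω, tau u (-(n + 1 : ℕ)) (clE c ω) (2 * (n + 1)) * (tr (clE c ω))^[n + 1] (hv n) 0 ∂(env α) <
      u * ∫ ω, (tr (clE c ω))^[n + 1] (hv n) 0 ∂(env α) := by
  have hG := bm_tr h0 hc (hv n) (n + 1) 0
  have hk : 2 * (n + 1) = (2 * n + 1) + 1 := by ring
  have hb : -((n + 1 : ℕ) : ℤ) + ((2 * n + 1 : ℕ) : ℤ) = n := by push_cast; ring
  have b1 : BM fun ω : ℤ → ℝ => rho (cl c (ω (-((n + 1 : ℕ) : ℤ) + (2 * n + 1 : ℕ)))) *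
      (tr (clE c ω))^[n + 1] (hv n) 0 :=
    ((bm_rho_cl h0 hc).comp (measurable_pi_apply _)).mul hG
  have h1 := tau_step h0 hc α hG (tau_le h0 hc α hu.le huR _ _ _ b1 (mono_rho_mul h0 hc
    (G := fun ω => (tr (clE c ω))^[n + 1] (hv n) 0) fun j _ ω => monotone_tr_update h0 hc (monotone_hv n) (n + 1) 0 _ ω))
  rw [hk]
  refine h1.trans_lt ?_
  rw [hb]
  set H : (ℤ → ℝ) → ℝ := fun ω => ∏ l ∈ Finset.range n, clE c ω (0 + l) with hH
  have bH : BM H := BM.prod _ fun l => bm_clE h0 hc _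
  have hH' : ∀ ω a, H (update ω n a) = H ω := by
    intro ω a
    refine Finset.prod_congr rfl fun l hl => ?_
    have := Finset.mem_range.1 hl
    have hne : (0 : ℤ) + l ≠ n := by omega
    simp only [clE, update_of_ne hne]
  have e : ∀ ω, (tr (clE c ω))^[n + 1] (hv n) 0 = cl c (ω n) * H ω := by
    intro ω
    rw [tr_iterate_hv_edge _ _ _ _ (by push_cast; ring), Finset.prod_range_succ, mul_comm]
    simp only [clE, zero_add, hH]
  have hpos : 0 < ∫ ω, H ω ∂(env α) := by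
    have : ∫ _ω, c ^ n ∂(env α) ≤ ∫ ω, H ω ∂(env α) := by
      refine integral_mono (integrable_const _) (bH.integrable _) fun ω => ?_
      have := Finset.prod_le_prod (s := Finset.range n) (f := fun _ => c)
        (g := fun l : ℕ => clE c ω (0 + l)) (fun _ _ => h0.le) (fun l _ => (cl_mem hc _).1)
      simpa [hH] using this
    rw [integral_const, probReal_univ, one_smul] at this
    exact (pow_pos h0 n).trans_le this
  simp only [e, ← mul_assoc]
  rw [indep_env α n (bm_cl h0 hc) bH hH',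
    indep_env α n ((bm_rho_cl h0 hc).mul (bm_cl h0 hc)) bH hH']
  have h2 := mul_lt_mul_of_pos_left
    (mul_lt_mul_of_pos_right (strict_cheb h0 hc α hae hnd) hpos) hu
  calc _ < (∫ a, cl c a ∂α) * ∫ ω, H ω ∂(env α) +
        (1 + u) * (((∫ a, rho (cl c a) ∂α) * ∫ a, cl c a ∂α) * ∫ ω, H ω ∂(env α)) := by linarith
    _ = (1 + (1 + u) * ∫ a, rho (cl c a) ∂α) * ((∫ a, cl c a ∂α) * ∫ ω, H ω ∂(env α)) := by ring
    _ = _ := by rw [← huR]

lemma lt_mul_mean (hae : ∀ᵐ w ∂α, w ∈ Icc c (1 - c)) (hnd : ∀ a : ℝ, α ≠ Measure.dirac a)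
    {u : ℝ} (hu : 0 < 1 + u) (huR : u = 1 + (1 + u) * ∫ a, rho (cl c a) ∂α) {n : ℕ}
    (hn : 1 ≤ n) :
    (n : ℝ) < u * ∫ ω, (tr (clE c ω))^[n] (fun y => (y : ℝ)) 0 ∂(env α) := by
  set G : ℕ → (ℤ → ℝ) → ℝ := fun k ω =>
    (tr (clE c ω))^[n] (hv (-n - 1 + k)) 0 - hv (-n - 1 + k) 0 with hGdef
  have hG : ∀ k, BM (G k) := fun k => (bm_tr h0 hc _ n 0).sub (BM.const _)
  have e1 : (n : ℝ) = ∑ k ∈ Finset.range (2 * n + 1),
      ∫ ω, tau u (-n) (clE c ω) k * G k ω ∂(env α) := by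
    rw [← integral_finsetSum _ fun k _ => ((bm_tau h0 hc u _ k).mul (hG k)).integrable _]
    have : ∀ ω, ∑ k ∈ Finset.range (2 * n + 1), tau u (-n) (clE c ω) k * G k ω = n :=
      fun ω => sum_tau_mul u (ω := clE c ω) (fun x => (cl_pos h0 hc _).ne') n
    simp only [this]
    simp
  have e2 : ∫ ω, (tr (clE c ω))^[n] (fun y => (y : ℝ)) 0 ∂(env α) =
      ∑ k ∈ Finset.range (2 * n + 1), ∫ ω, G k ω ∂(env α) := by
    rw [← integral_finsetSum _ fun k _ => (hG k).integrable _]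
    simp only [hGdef, sum_hv_sub]
  rw [e2, Finset.mul_sum]
  conv_lhs => rw [e1]
  refine Finset.sum_lt_sum (fun k _ => ?_) ⟨2 * n, by simp, ?_⟩
  · refine tau_le h0 hc α hu.le huR _ k _ (hG k) fun j _ ω => ?_
    exact fun a b hab => sub_le_sub_right
      (monotone_tr_update h0 hc (monotone_hv _) n 0 _ ω hab) _
  · obtain ⟨n, rfl⟩ : ∃ m, n = m + 1 := ⟨n - 1, by omega⟩
    have hb : -((n + 1 : ℕ) : ℤ) - 1 + ((2 * (n + 1) : ℕ) : ℤ) = n := by push_cast; ring
    have hz : hv n 0 = 0 := by simp [hv]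
    simp only [hGdef, hb, hz, sub_zero]
    exact tau_lt h0 hc α hae hnd hu huR n

omit h0 hc in
lemma ae_clE_eq (hae : ∀ᵐ w ∂α, w ∈ Icc c (1 - c)) : ∀ᵐ ω ∂(env α), clE c ω = ω := by
  have : ∀ᵐ ω ∂(env α), ∀ x, ω x ∈ Icc c (1 - c) := by
    rw [ae_all_iff]
    intro x
    exact (measurePreserving_eval_infinitePi (fun _ : ℤ => α) x).quasiMeasurePreserving.ae hae
  filter_upwards [this] with ω hω
  funext x
  exact cl_eq (hω x)

lemma lintegral_annealed_ofReal (hae : ∀ᵐ w ∂α, w ∈ Icc c (1 - c)) {f : ℤ → ℝ}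
    (hf : ∀ x, 0 ≤ f x) (n : ℕ) :
    ∫⁻ y, ENNReal.ofReal (f y) ∂(annealed α n) =
      ENNReal.ofReal (∫ ω, (tr (clE c ω))^[n] f 0 ∂(env α)) := by
  rw [lintegral_annealed, ofReal_integral_eq_lintegral_ofReal ((bm_tr h0 hc f n 0).integrable _)
    (Eventually.of_forall fun ω => tr_iterate_nonneg (clE_mem h0 hc ω) hf n 0)]
  refine lintegral_congr_ae ?_
  filter_upwards [ae_clE_eq α hae] with ω hω
  rw [← etr_iterate_ofReal (clE_mem h0 hc ω) hf, hω]

lemma integral_annealed (hae : ∀ᵐ w ∂α, w ∈ Icc c (1 - c)) (f : ℤ → ℝ) (n : ℕ) :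
    ∫ y, f y ∂(annealed α n) = ∫ ω, (tr (clE c ω))^[n] f 0 ∂(env α) := by
  have key : ∀ g : ℤ → ℝ, (∀ x, 0 ≤ g x) → Integrable g (annealed α n) ∧
      ∫ y, g y ∂(annealed α n) = ∫ ω, (tr (clE c ω))^[n] g 0 ∂(env α) := by
    intro g hg
    have h1 := lintegral_annealed_ofReal h0 hc α hae hg n
    have hm : AEStronglyMeasurable g (annealed α n) :=
      (measurable_of_countable g).aestronglyMeasurable
    refine ⟨(lintegral_ofReal_ne_top_iff_integrable hm (Eventually.of_forall hg)).1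
      (by rw [h1]; exact ENNReal.ofReal_ne_top), ?_⟩
    rw [integral_eq_lintegral_of_nonneg_ae (Eventually.of_forall hg) hm, h1,
      ENNReal.toReal_ofReal (integral_nonneg fun ω => tr_iterate_nonneg (clE_mem h0 hc ω) hg n 0)]
  obtain ⟨i1, e1⟩ := key (fun y => max (f y) 0) fun _ => le_max_right _ _
  obtain ⟨i2, e2⟩ := key (fun y => max (-f y) 0) fun _ => le_max_right _ _
  have e : f = fun y => max (f y) 0 - max (-f y) 0 := by
    funext y; rw [max_zero_sub_max_neg_zero_eq_self]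
  rw [e, integral_sub i1 i2, e1, e2, ← integral_sub ((bm_tr h0 hc _ n 0).integrable _)
    ((bm_tr h0 hc _ n 0).integrable _)]
  simp only [tr_iterate_sub]

lemma mean_rho_lt_one (hae : ∀ᵐ w ∂α, w ∈ Icc c (1 - c)) {s : ℝ} (hs : 1 < s)
    (hlog : ∫ w, Real.log (rho w) ∂α < 0) (hmom : ∫ w, rho w ^ s ∂α = 1) :
    ∫ w, rho w ∂α < 1 := by
  by_contra hle
  push Not at hle
  have hcl : ∀ᵐ w ∂α, rho (cl c w) = rho w := hae.mono fun w hw => by rw [cl_eq hw]
  have hpos : ∀ᵐ w ∂α, 0 < rho w := hcl.mono fun w hw => hw ▸ rho_cl_pos h0 hc w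
  have i1 : Integrable rho α := ((bm_rho_cl h0 hc).integrable α).congr hcl
  have i2 : Integrable (fun w => rho w ^ s) α := by
    by_contra hn
    rw [integral_undef hn] at hmom
    exact zero_ne_one hmom
  have i3 : Integrable (fun w => rho w ^ s - 1 - s * rho w + s) α :=
    ((i2.sub (integrable_const _)).sub (i1.const_mul _)).add (integrable_const _)
  have hnn : 0 ≤ᵐ[α] fun w => rho w ^ s - 1 - s * rho w + s := by
    filter_upwards [hpos] with w hw
    have := one_add_mul_self_le_rpow_one_add (s := rho w - 1) (by linarith) hs.le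
    rw [add_sub_cancel] at this
    simp only [Pi.zero_apply]
    linarith
  have h3 : ∫ w, (rho w ^ s - 1 - s * rho w + s) ∂α = 0 := by
    refine le_antisymm ?_ (integral_nonneg_of_ae hnn)
    rw [integral_four α i2 (integrable_const _) (i1.const_mul _) (integrable_const _), hmom,
      integral_const, integral_const, integral_const_mul, probReal_univ, one_smul, one_smul]
    nlinarith
  rw [integral_eq_zero_iff_of_nonneg_ae hnn i3] at h3
  have h4 : ∀ᵐ w ∂α, Real.log (rho w) = 0 := by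
    filter_upwards [h3, hpos] with w hw hw'
    by_contra hne
    have h1 : rho w - 1 ≠ 0 := fun h => hne (by rw [show rho w = 1 by linarith, Real.log_one])
    have := one_add_mul_self_lt_rpow_one_add (s := rho w - 1) (by linarith) h1 hs
    rw [add_sub_cancel] at this
    simp only [Pi.zero_apply] at hw
    linarith
  rw [integral_congr_ae h4, integral_zero] at hlog
  exact lt_irrefl _ hlog

end clamp

theorem main_of_lt_one (α : Measure ℝ) [IsProbabilityMeasure α]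
    (hnd : ∀ a : ℝ, α ≠ Measure.dirac a)
    {c : ℝ} (h0 : 0 < c) (hc : c ≤ 1 - c) (hae : ∀ᵐ w ∂α, w ∈ Icc c (1 - c))
    (hR : ∫ w, rho w ∂α < 1) {n : ℕ} (hn : 1 ≤ n) :
    speed α * n < ∫ x, (x : ℝ) ∂(annealed α n) := by
  have hcl : ∫ w, rho (cl c w) ∂α = ∫ w, rho w ∂α :=
    integral_congr_ae (hae.mono fun w hw => by simp only [cl_eq hw])
  have hR0 : 0 ≤ ∫ w, rho w ∂α := hcl ▸ integral_nonneg fun w => rho_cl_nonneg h0 hc w
  rw [speed, if_pos hR, integral_annealed h0 hc α hae]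
  set R := ∫ w, rho w ∂α
  have h1 : 0 < 1 - R := by linarith
  have h2 : 0 < 1 + R := by linarith
  have := lt_mul_mean h0 hc α hae hnd (u := (1 + R) / (1 - R)) (by positivity)
    (by rw [hcl]; field_simp; ring) hn
  rw [div_mul_eq_mul_div, lt_div_iff₀ h1] at this
  rw [div_mul_eq_mul_div, div_lt_iff₀ h2]
  linarith

theorem main (α : Measure ℝ) [IsProbabilityMeasure α] (hnd : ∀ a : ℝ, α ≠ Measure.dirac a)
    (c : ℝ) (h0 : 0 < c) (hell : α (Icc c (1 - c)) = 1) (s : ℝ) (hs : 1 < s)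
    (hlog : ∫ w, Real.log (rho w) ∂α < 0) (hmom : ∫ w, rho w ^ s ∂α = 1)
    (n : ℕ) (hn : 1 ≤ n) : speed α * n < ∫ x, (x : ℝ) ∂(annealed α n) := by
  have hae : ∀ᵐ w ∂α, w ∈ Icc c (1 - c) := (mem_ae_iff_prob_eq_one measurableSet_Icc).2 hell
  have hc : c ≤ 1 - c := by
    obtain ⟨w, hw⟩ := hae.exists
    exact hw.1.trans hw.2
  exact main_of_lt_one α hnd h0 hc hae (mean_rho_lt_one h0 hc α hae hs hlog hmom) hn

end Pool.Agent.MP_c9886c_pr
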