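import Pool.Agent.MP_c9886c_pr.Defs

set_option autoImplicit false

open MeasureTheory Set
open scoped ENNReal

namespace Pool.Agent.MP_c9886c_pr

/-- The transition operator on real functions. -/
def tr (ω : ℤ → ℝ) (f : ℤ → ℝ) : ℤ → ℝ := fun x => ω x * f (x + 1) + (1 - ω x) * f (x - 1)

/-- The transition operator on extended nonnegative functions. -/
noncomputable def etr (ω : ℤ → ℝ) (f : ℤ → ℝ≥0∞) : ℤ → ℝ≥0∞ := fun x =>
  ENNReal.ofReal (ω x) * f (x + 1) + ENNReal.ofReal (1 - ω x) * f (x - 1)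

lemma lintegral_step (ω : ℤ → ℝ) (f : ℤ → ℝ≥0∞) (x : ℤ) :
    ∫⁻ y, f y ∂(step ω x) = etr ω f x := by
  simp [step, etr, lintegral_add_measure, lintegral_smul_measure]

lemma lintegral_quenched (ω : ℤ → ℝ) (n : ℕ) : ∀ f : ℤ → ℝ≥0∞,
    ∫⁻ y, f y ∂(quenched ω n) = (etr ω)^[n] f 0 := by
  induction n with
  | zero => intro f; simp [quenched]
  | succ n ih =>
    intro f
    rw [quenched, Measure.lintegral_bind (measurable_of_countable _).aemeasurable
      (measurable_of_countable _).aemeasurable, Function.iterate_succ_apply, ← ih]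
    simp only [lintegral_step]

lemma measurable_etr_iterate (f : ℤ → ℝ≥0∞) (n : ℕ) :
    ∀ x, Measurable fun ω : ℤ → ℝ => (etr ω)^[n] f x := by
  induction n with
  | zero => intro x; simp
  | succ n ih =>
    intro x
    simp only [Function.iterate_succ_apply', etr]
    have h1 := ih (x + 1)
    have h2 := ih (x - 1)
    fun_prop

lemma measurable_quenched (n : ℕ) : Measurable fun ω : ℤ → ℝ => quenched ω n := by
  refine Measure.measurable_of_measurable_coe _ fun s hs => ?_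
  simp only [← lintegral_indicator_one hs, lintegral_quenched]
  exact measurable_etr_iterate _ n 0

lemma lintegral_annealed (α : Measure ℝ) (n : ℕ) (f : ℤ → ℝ≥0∞) :
    ∫⁻ y, f y ∂(annealed α n) =
      ∫⁻ ω, (etr ω)^[n] f 0 ∂(Measure.infinitePi fun _ : ℤ => α) := by
  rw [annealed, Measure.lintegral_bind (measurable_quenched n).aemeasurable
    (measurable_of_countable _).aemeasurable]
  simp only [lintegral_quenched]

lemma tr_iterate_succ (ω : ℤ → ℝ) (f : ℤ → ℝ) (n : ℕ) (x : ℤ) :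
    (tr ω)^[n + 1] f x = ω x * (tr ω)^[n] f (x + 1) + (1 - ω x) * (tr ω)^[n] f (x - 1) := by
  rw [Function.iterate_succ_apply']; rfl

lemma tr_iterate_nonneg {ω : ℤ → ℝ} (hω : ∀ x, ω x ∈ Icc (0 : ℝ) 1) {f : ℤ → ℝ}
    (hf : ∀ x, 0 ≤ f x) (n : ℕ) : ∀ x, 0 ≤ (tr ω)^[n] f x := by
  induction n with
  | zero => exact hf
  | succ n ih =>
    intro x
    rw [tr_iterate_succ]
    exact add_nonneg (mul_nonneg (hω x).1 (ih _)) (mul_nonneg (sub_nonneg.2 (hω x).2) (ih _))

lemma etr_iterate_ofReal {ω : ℤ → ℝ} (hω : ∀ x, ω x ∈ Icc (0 : ℝ) 1) {f : ℤ → ℝ}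
    (hf : ∀ x, 0 ≤ f x) (n : ℕ) :
    ∀ x, (etr ω)^[n] (fun y => ENNReal.ofReal (f y)) x = ENNReal.ofReal ((tr ω)^[n] f x) := by
  induction n with
  | zero => intro x; rfl
  | succ n ih =>
    intro x
    have h1 := (hω x).1
    have h2 := sub_nonneg.2 (hω x).2
    rw [tr_iterate_succ, Function.iterate_succ_apply', etr, ih, ih, ← ENNReal.ofReal_mul h1,
      ← ENNReal.ofReal_mul h2, ← ENNReal.ofReal_add
      (mul_nonneg h1 (tr_iterate_nonneg hω hf n _)) (mul_nonneg h2 (tr_iterate_nonneg hω hf n _))]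

lemma tr_iterate_sum {ι : Type*} (ω : ℤ → ℝ) (s : Finset ι) (c : ι → ℝ) (f : ι → ℤ → ℝ) (n : ℕ) :
    ∀ x, (tr ω)^[n] (fun y => ∑ i ∈ s, c i * f i y) x = ∑ i ∈ s, c i * (tr ω)^[n] (f i) x := by
  induction n with
  | zero => intro x; rfl
  | succ n ih =>
    intro x
    simp only [tr_iterate_succ, ih, Finset.mul_sum, ← Finset.sum_add_distrib]
    exact Finset.sum_congr rfl fun i _ => by ring

lemma tr_iterate_sub (ω : ℤ → ℝ) (f g : ℤ → ℝ) (n : ℕ) :
    ∀ x, (tr ω)^[n] (fun y => f y - g y) x = (tr ω)^[n] f x - (tr ω)^[n] g x := by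
  induction n with
  | zero => intro x; rfl
  | succ n ih =>
    intro x
    simp only [tr_iterate_succ, ih]
    ring

/-- Locality, allowing an additive constant. -/
lemma tr_iterate_local (ω : ℤ → ℝ) (f g : ℤ → ℝ) (c : ℝ) (a b : ℤ)
    (h : ∀ y, a ≤ y → y ≤ b → f y = g y + c) (n : ℕ) :
    ∀ x, a + n ≤ x → x + n ≤ b → (tr ω)^[n] f x = (tr ω)^[n] g x + c := by
  induction n with
  | zero => intro x h1 h2; exact h x (by simpa using h1) (by simpa using h2)
  | succ n ih =>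
    intro x h1 h2
    push_cast at h1 h2
    rw [tr_iterate_succ, tr_iterate_succ, ih _ (by omega) (by omega), ih _ (by omega) (by omega)]
    ring

lemma tr_iterate_harmonic (ω : ℤ → ℝ) (f : ℤ → ℝ) (a b : ℤ)
    (h : ∀ y, a < y → y < b → tr ω f y = f y + 1) (n : ℕ) :
    ∀ x, a + n ≤ x → x + n ≤ b → (tr ω)^[n] f x = f x + n := by
  induction n with
  | zero => intro x _ _; simp
  | succ n ih =>
    intro x h1 h2
    push_cast at h1 h2
    have := h x (by omega) (by omega)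
    rw [tr_iterate_succ, ih _ (by omega) (by omega), ih _ (by omega) (by omega)]
    simp only [tr] at this
    push_cast
    linear_combination this

lemma tr_iterate_two_mono {ω : ℤ → ℝ} (hω : ∀ x, ω x ∈ Icc (0 : ℝ) 1) {f : ℤ → ℝ}
    (hf : Monotone f) (n : ℕ) : ∀ x, (tr ω)^[n] f (x - 1) ≤ (tr ω)^[n] f (x + 1) := by
  induction n with
  | zero => intro x; exact hf (by omega)
  | succ n ih =>
    intro x
    rw [tr_iterate_succ, tr_iterate_succ]
    have h1 := ih (x - 1)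
    have h2 := ih (x + 1)
    rw [sub_add_cancel] at h1 ⊢
    rw [add_sub_cancel_right] at h2 ⊢
    nlinarith [(hω (x - 1)).1, (hω (x - 1)).2, (hω (x + 1)).1, (hω (x + 1)).2]

lemma tr_iterate_mono {ω ω' : ℤ → ℝ} (hω : ∀ x, ω x ∈ Icc (0 : ℝ) 1)
    (hω' : ∀ x, ω' x ∈ Icc (0 : ℝ) 1) (hle : ∀ x, ω x ≤ ω' x) {f : ℤ → ℝ}
    (hf : Monotone f) (n : ℕ) : ∀ x, (tr ω)^[n] f x ≤ (tr ω')^[n] f x := by
  induction n with
  | zero => intro x; exact le_rfl
  | succ n ih =>
    intro x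
    rw [tr_iterate_succ, tr_iterate_succ]
    have h1 := mul_le_mul_of_nonneg_left (ih (x + 1)) (hω x).1
    have h2 := mul_le_mul_of_nonneg_left (ih (x - 1)) (sub_nonneg.2 (hω x).2)
    have h3 := mul_le_mul_of_nonneg_left (tr_iterate_two_mono hω' hf n x) (sub_nonneg.2 (hle x))
    nlinarith

/-- The step function `1[y > a]`. -/
def hv (a : ℤ) : ℤ → ℝ := fun y => if a < y then 1 else 0

lemma monotone_hv (a : ℤ) : Monotone (hv a) := by
  intro x y hxy
  simp only [hv]
  split_ifs <;> first | omega | norm_num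

lemma tr_iterate_hv_zero (ω : ℤ → ℝ) (a : ℤ) (n : ℕ) :
    ∀ x, x + n ≤ a → (tr ω)^[n] (hv a) x = 0 := by
  induction n with
  | zero => intro x hx; simp only [Function.iterate_zero, id, hv]; rw [if_neg (by omega)]
  | succ n ih =>
    intro x hx
    push_cast at hx
    rw [tr_iterate_succ, ih _ (by omega), ih _ (by omega)]
    ring

lemma tr_iterate_hv_edge (ω : ℤ → ℝ) (a : ℤ) (n : ℕ) :
    ∀ x, x + n = a + 1 → (tr ω)^[n] (hv a) x = ∏ l ∈ Finset.range n, ω (x + l) := by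
  induction n with
  | zero => intro x hx; simp only [Function.iterate_zero, id, hv]; rw [if_pos (by omega)]; simp
  | succ n ih =>
    intro x hx
    push_cast at hx
    rw [tr_iterate_succ, ih _ (by omega), tr_iterate_hv_zero _ _ _ _ (by omega),
      Finset.prod_range_succ']
    simp only [Nat.cast_zero, add_zero, mul_zero, Nat.cast_add, Nat.cast_one]
    rw [mul_comm]
    congr 1
    exact Finset.prod_congr rfl fun l _ => by congr 1; ring

/-- Truncated expected crossing times. -/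
noncomputable def tau (u : ℝ) (b : ℤ) (ω : ℤ → ℝ) : ℕ → ℝ
  | 0 => u
  | k + 1 => 1 + rho (ω (b + k)) * (1 + tau u b ω k)

lemma sum_hv_diff (c : ℕ → ℝ) (b : ℤ) (N j : ℕ) (hj : j < N) :
    ∑ k ∈ Finset.range N, c k * hv (b + k) (b + j + 1) =
      ∑ k ∈ Finset.range N, c k * hv (b + k) (b + j) + c j := by
  have : c j = ∑ k ∈ Finset.range N, if k = j then c k else 0 := by
    rw [Finset.sum_ite_eq' (Finset.range N) j, if_pos (Finset.mem_range.2 hj)]
  rw [this, ← Finset.sum_add_distrib]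
  refine Finset.sum_congr rfl fun k _ => ?_
  simp only [hv]
  split_ifs <;> first | omega | ring

lemma sum_hv_eq (b : ℤ) (N : ℕ) : ∀ j : ℕ, j ≤ N →
    ∑ k ∈ Finset.range N, (1 : ℝ) * hv (b + k) (b + j) = j := by
  intro j
  induction j with
  | zero =>
    intro _
    refine (Finset.sum_eq_zero fun k _ => ?_).trans (by simp)
    simp only [hv]
    rw [if_neg (by omega)]
    simp
  | succ j ih =>
    intro hj
    have := sum_hv_diff (fun _ => 1) b N j (by omega)
    push_cast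
    rw [← add_assoc, this, ih (by omega)]

/-- The martingale identity. -/
lemma sum_tau_mul (u : ℝ) {ω : ℤ → ℝ} (hω : ∀ x, ω x ≠ 0) (n : ℕ) :
    ∑ k ∈ Finset.range (2 * n + 1), tau u (-n) ω k *
      ((tr ω)^[n] (hv (-n - 1 + k)) 0 - hv (-n - 1 + k) 0) = n := by
  have h := tr_iterate_harmonic ω
    (fun y => ∑ k ∈ Finset.range (2 * n + 1), tau u (-n) ω k * hv (-n - 1 + k) y) (-n - 1) n
    (fun y h1 h2 => ?_) n 0 (by omega) (by omega)
  · rw [tr_iterate_sum] at h
    simp only [mul_sub, Finset.sum_sub_distrib]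
    linarith
  · obtain ⟨j, rfl⟩ : ∃ j : ℕ, y = -n + j := ⟨(y + n).toNat, by omega⟩
    have e1 := sum_hv_diff (tau u (-n) ω) (-n - 1) (2 * n + 1) (j + 1) (by omega)
    have e2 := sum_hv_diff (tau u (-n) ω) (-n - 1) (2 * n + 1) j (by omega)
    have a1 : -(n : ℤ) - 1 + ((j + 1 : ℕ) : ℤ) = -n + j := by push_cast; ring
    have a2 : -(n : ℤ) - 1 + (j : ℤ) + 1 = -n + j := by ring
    have a3 : -(n : ℤ) - 1 + (j : ℤ) = -n + j - 1 := by ring
    rw [a1] at e1
    rw [a2, a3] at e2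
    simp only [tr]
    rw [e1, tau, rho]
    have hw := hω (-n + j)
    have e3 : ∑ k ∈ Finset.range (2 * n + 1), tau u (-n) ω k * hv (-n - 1 + k) (-n + j - 1) =
      ∑ k ∈ Finset.range (2 * n + 1), tau u (-n) ω k * hv (-n - 1 + k) (-n + j)
        - tau u (-n) ω j := by linarith
    rw [e3]
    field_simp
    ring

lemma sum_hv_sub (ω : ℤ → ℝ) (n : ℕ) :
    ∑ k ∈ Finset.range (2 * n + 1), ((tr ω)^[n] (hv (-n - 1 + k)) 0 - hv (-n - 1 + k) 0) =
      (tr ω)^[n] (fun y => (y : ℝ)) 0 := by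
  have key : ∀ y : ℤ, -n ≤ y → y ≤ n →
      ∑ k ∈ Finset.range (2 * n + 1), (1 : ℝ) * hv (-n - 1 + k) y = (y : ℝ) + (n + 1) := by
    intro y h1 h2
    obtain ⟨j, rfl⟩ : ∃ j : ℕ, y = -n - 1 + j := ⟨(y + n + 1).toNat, by omega⟩
    rw [sum_hv_eq _ _ j (by omega)]
    push_cast
    ring
  have h := tr_iterate_local ω _ _ _ (-n) n key n 0 (by omega) (by omega)
  have h0 := key 0 (by omega) (by omega)
  rw [tr_iterate_sum] at h
  simp only [one_mul] at h h0
  rw [Finset.sum_sub_distrib, h, h0]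
  simp

end Pool.Agent.MP_c9886c_pr
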